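import Pool.Agent.X296.Dia.Main

/-!
# Mazur's question for free diagonal quotients of products of double covers of Kummer type
(helper296)

Let `K` be a number field. We consider products `Y = ∏_j Y_j` of double covers of Kummer type
`Y_j : w_j² = ∏_i q_ji(z_ji)`, with separable polynomials `q_ji` of degree three or four (for one
factor this is a curve of genus one, for two factors a Kummer surface, in general a singular
Calabi–Yau variety), and an involution of `Y` which changes the signs of some of the coordinates
`w_j`, `z_ji`; the polynomial `q_ji` is even and `q_ji(0) ≠ 0` if the sign of `z_ji` is changed. We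
assume that for some `j` the signs of all the coordinates `w_j`, `z_ji` of `Y_j` are changed. Then the
involution has no fixed points, because `∏_i q_ji` does not vanish at the points with coordinates in
`{0, ∞}`. Let `X` be the quotient of `Y`. Examples:

* a product of two curves of genus one, with a translation by a point of order two on the first
  and the sign change of `w_2` on the second one: bielliptic surfaces;
* a Kummer surface with the involution `(w, z_1, z_2) ↦ (-w, -z_1, -z_2)` (whose quotient is an
  Enriques surface) and a curve of genus one with the sign change of `w_2`: the Enriques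
  Calabi–Yau threefolds;
* a curve of genus one with a translation, and a Kummer surface with any change of signs.

The part of `X` with all `z_ji` finite is an affine variety. Its coordinates are the invariant
coordinates of `Y` and the products of two coordinates with change of signs. (The other parts, with
`z_ji` replaced by `1/z_ji` for some of the indices, are of the same form, with the coefficients of
`q_ji` in the opposite order.)

The ideals of the local Zariski closures of `X(K)` at the points of `X` over a completion of `K` take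
only finitely many values, and the same holds for all finite products of such quotients (with
different data).

Idea of the proof. The rational points of `X` come from the rational points of all quadratic twists of
`Y`, and only finitely many twists (up to squares) have rational points, because this holds for the
factor `Y_j` with the free involution (`Pool.Agent.X296.Kum.Sel`). The twists of `Y` are products of
double covers of Kummer type; their local closures are finite in number
(`Pool.Agent.Y720.MZ.mainK`, `Pool.Agent.X296.Dia.Sig`). The map from a twist to `X` is proper, so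
the local ideals of the image at `x` are the intersections of the inverse images of the local
ideals at the points over `x` (`Pool.Agent.X296.Kum.FinMap`).
-/

set_option autoImplicit false

namespace Pool.Agent.Results.MP_f9f755_nt.DiagonalQuotients

open MvPolynomial Pool.Agent.TH729.CV

universe v

/-- The coordinates of the factors: `⟨j, 0⟩` for `w_j`, and `⟨j, i + 1⟩` for `z_ji`. -/
abbrev Coord {J : Type} (r : J → ℕ) : Type := Σ j, Fin (r j + 1)

/-- The coordinates of the quotient: the invariant coordinates, and the products of two coordinates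
with change of signs. (The other ones are zero.) -/
abbrev QuotientCoord {J : Type} (r : J → ℕ) : Type := Coord r ⊕ (Coord r × Coord r)

/-- The number of the factors `q_ji` for each `j`, the coefficients of the polynomials
`q_ji(t) = ∑ q_jik t^k`, and the signs of the coordinates (`true` if the sign is changed). -/
structure Datum (F : Type*) (J : Type) where
  /-- the number of the polynomials for each factor -/
  r : J → ℕ
  /-- the coefficients -/
  q : ∀ j, Fin (r j) → Fin 5 → F
  /-- the signs -/
  s : Coord r → Bool

/-- The hypotheses. -/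
structure Admissible {F : Type*} [Field F] {J : Type} (E : Datum F J) : Prop where
  /-- the polynomials are separable of degree three or four -/
  separable : ∀ j i, (∑ k : Fin 5, Polynomial.C (E.q j i k) *
    (Polynomial.X : Polynomial F) ^ (k : ℕ)).Separable
  degree : ∀ j i, 3 ≤ (∑ k : Fin 5, Polynomial.C (E.q j i k) *
    (Polynomial.X : Polynomial F) ^ (k : ℕ)).natDegree
  /-- the polynomials with change of signs are even (and separable of degree four, without zero at
  the origin) -/
  even : ∀ j i, E.s ⟨j, i.succ⟩ = true → E.q j i 1 = 0 ∧ E.q j i 3 = 0 ∧ E.q j i 0 ≠ 0 ∧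
    E.q j i 4 ≠ 0 ∧ E.q j i 2 ^ 2 - 4 * E.q j i 4 * E.q j i 0 ≠ 0
  /-- for one factor all signs are changed -/
  free : ∃ j, ∀ k, E.s ⟨j, k⟩ = true

/-- The image of a point of the product in the quotient. -/
def quotientMap {F : Type*} [Field F] {J : Type} (E : Datum F J) (x : Coord E.r → F) :
    QuotientCoord E.r → F :=
  Sum.elim (fun α => if E.s α then 0 else x α)
    fun a => if E.s a.1 && E.s a.2 then x a.1 * x a.2 else 0

/-- The square of the coordinate `α`, as a function on the quotient. -/
def square {F : Type*} [Field F] {J : Type} (E : Datum F J) (p : QuotientCoord E.r → F)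
    (α : Coord E.r) : F :=
  if E.s α then p (Sum.inr (α, α)) else p (Sum.inl α) ^ 2

/-- The value of the polynomial with the coefficients `c` at the coordinate `α`, as a function on
the quotient (`c 1 = c 3 = 0` if the sign of `α` is changed). -/
def value {F : Type*} [Field F] {J : Type} (E : Datum F J) (c : Fin 5 → F)
    (p : QuotientCoord E.r → F) (α : Coord E.r) : F :=
  c 0 + c 1 * p (Sum.inl α) + c 2 * square E p α + c 3 * (p (Sum.inl α) * square E p α) +
    c 4 * square E p α ^ 2

/-- The points of the quotient. -/
structure OnQuotient {F : Type*} [Field F] {J : Type} (E : Datum F J)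
    (p : QuotientCoord E.r → F) : Prop where
  anti : ∀ α, E.s α = true → p (Sum.inl α) = 0
  inv : ∀ α β, (E.s α = false ∨ E.s β = false) → p (Sum.inr (α, β)) = 0
  rank : ∀ α β γ δ, p (Sum.inr (α, β)) * p (Sum.inr (γ, δ)) =
    p (Sum.inr (α, γ)) * p (Sum.inr (β, δ))
  cover : ∀ j, square E p ⟨j, 0⟩ = ∏ i, value E (E.q j i) p ⟨j, i.succ⟩

/-- The ideal of the local Zariski closure of the set of the `K`-rational points of `X` at the
point `x` with values in the field `L` (via `σ : K → L`): the polynomials which vanish at all the
`K`-rational points in some neighbourhood of `x`. -/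
def localIdeal {K : Type} [Field K] {J : Type} (E : Datum K J) {L : Type v}
    [NontriviallyNormedField L] (σ : K →+* L) (x : QuotientCoord E.r → L) :
    Set (MvPolynomial (QuotientCoord E.r) K) :=
  {f | ∃ U ∈ nhds x, ∀ p : QuotientCoord E.r → K, OnQuotient E p →
    (fun k => σ (p k)) ∈ U → eval p f = 0}

/-- The `K`-rational points of a product of quotients. -/
def OnProduct {K : Type} [Field K] {ι : Type} {J : ι → Type} (E : ∀ i, Datum K (J i))
    (p : (Σ i, QuotientCoord (E i).r) → K) : Prop :=
  ∀ i, OnQuotient (E i) fun k => p ⟨i, k⟩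

/-- The ideal of the local Zariski closure for a product of quotients. -/
def localIdealProduct {K : Type} [Field K] {ι : Type} {J : ι → Type} (E : ∀ i, Datum K (J i))
    {L : Type v} [NontriviallyNormedField L] (σ : K →+* L)
    (x : (Σ i, QuotientCoord (E i).r) → L) :
    Set (MvPolynomial (Σ i, QuotientCoord (E i).r) K) :=
  {f | ∃ U ∈ nhds x, ∀ p : (Σ i, QuotientCoord (E i).r) → K, OnProduct E p →
    (fun k => σ (p k)) ∈ U → eval p f = 0}

lemma sum_eq {F : Type*} [Field F] (c : Fin 5 → F) : (∑ k : Fin 5, Polynomial.C (c k) *
    (Polynomial.X : Polynomial F) ^ (k : ℕ)) = Pool.Agent.Y720.MZ.qp c := by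
  rw [Fin.sum_univ_five]
  simp [Pool.Agent.Y720.MZ.qpol, Pool.Agent.Y720.MZ.qp]

lemma onQuotient_iff {F : Type*} [Field F] {J : Type} (E : Datum F J)
    (p : QuotientCoord E.r → F) : OnQuotient E p ↔
      Pool.Agent.X296.Dia.Rk E.s p ∧ Pool.Agent.X296.Dia.Blk E.q E.s p :=
  ⟨fun ⟨h1, h2, h3, h4⟩ => ⟨⟨h1, h2, h3⟩, h4⟩, fun ⟨⟨h1, h2, h3⟩, h4⟩ => ⟨h1, h2, h3, h4⟩⟩

/-- **Mazur's question for free diagonal quotients of products of double covers of Kummer type.** -/
theorem result :
    -- (0) over an algebraically closed field `X` is the image of the product of the varieties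
    -- `w_j² = ∏_i q_ji(z_ji)`
    (∀ (F : Type v) [Field F] [IsAlgClosed F] (J : Type) (E : Datum F J), Admissible E →
      ∀ p : QuotientCoord E.r → F, OnQuotient E p ↔ ∃ x : Coord E.r → F,
        (∀ j, x ⟨j, 0⟩ ^ 2 = ∏ i, ∑ k : Fin 5, E.q j i k * x ⟨j, i.succ⟩ ^ (k : ℕ)) ∧
        p = quotientMap E x) ∧
    -- (1) for all number fields and all completions the local ideals take only finitely many values
    ∀ (K : Type) [Field K] [NumberField K] (L : Type v) [NontriviallyNormedField L]
      [CompleteSpace L] (σ : K →+* L), DenseRange σ →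
    (∀ (J : Type) [Finite J] (E : Datum K J), Admissible E →
      {I : Set (MvPolynomial (QuotientCoord E.r) K) |
        ∃ x : QuotientCoord E.r → L, I = localIdeal E σ x}.Finite) ∧
    -- (2) the same for the finite products of such quotients
    ∀ (ι : Type) [Finite ι] (J : ι → Type) [∀ i, Finite (J i)] (E : ∀ i, Datum K (J i)),
      (∀ i, Admissible (E i)) →
      {I : Set (MvPolynomial (Σ i, QuotientCoord (E i).r) K) |
        ∃ x : (Σ i, QuotientCoord (E i).r) → L, I = localIdealProduct E σ x}.Finite := by
  refine ⟨fun F _ _ J E hE p => ?_, ?_⟩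
  · rw [onQuotient_iff]
    have key : ∀ x : Coord E.r → F, x ∈ Pool.Agent.X296.Dia.TD E.q E.s 1 ↔
        ∀ j, x ⟨j, 0⟩ ^ 2 = ∏ i, ∑ k : Fin 5, E.q j i k * x ⟨j, i.succ⟩ ^ (k : ℕ) := by
      intro x
      refine forall_congr' fun j => ?_
      change x ⟨j, 0⟩ ^ 2 = (if E.s ⟨j, 0⟩ then (1 : F)⁻¹ else 1) * ∏ i, Pool.Agent.Y720.MZ.qf
        (Pool.Agent.X296.Dia.qs (E.s ⟨j, i.succ⟩) 1 (E.q j i)) ![1, x ⟨j, i.succ⟩] ↔ _
      have h1 : (if E.s ⟨j, 0⟩ then (1 : F)⁻¹ else 1) = 1 := by
        split_ifs
        · exact inv_one
        · rfl
      rw [h1, one_mul]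
      have h2 : ∀ i, Pool.Agent.Y720.MZ.qf
          (Pool.Agent.X296.Dia.qs (E.s ⟨j, i.succ⟩) 1 (E.q j i)) ![1, x ⟨j, i.succ⟩] =
          ∑ k : Fin 5, E.q j i k * x ⟨j, i.succ⟩ ^ (k : ℕ) := by
        intro i
        rw [Fin.sum_univ_five, Pool.Agent.Y720.MZ.qf_eq]
        rcases Bool.eq_false_or_eq_true (E.s ⟨j, i.succ⟩) with h | h
        · obtain ⟨h3, h4, -⟩ := hE.even j i h
          simp [Pool.Agent.X296.Dia.qs, h, h3, h4]
          ring
        · simp [Pool.Agent.X296.Dia.qs, h]
          ring
      simp only [h2]
    have him : ∀ x : Coord E.r → F, Pool.Agent.X296.Dia.im E.s 1 x = quotientMap E x := by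
      intro x
      unfold Pool.Agent.X296.Dia.im quotientMap
      simp only [one_mul]
    constructor
    · rintro ⟨h1, h2⟩
      obtain ⟨d, x, hd, hx, rfl⟩ := Pool.Agent.X296.Dia.exists_rep
        (fun j i hs => (hE.even j i hs).2.2.1) hE.free h1 h2
      obtain ⟨e, rfl⟩ := IsAlgClosed.exists_pow_nat_eq d (n := 2) (by norm_num)
      have h3 := Pool.Agent.X296.Dia.im_scale E.s 1 e x
      rw [one_mul] at h3
      rw [h3] at h2 ⊢
      exact ⟨_, (key _).1 ((Pool.Agent.X296.Dia.blk_im E.q E.s one_ne_zero _).1 h2), him _⟩
    · rintro ⟨x, hx, rfl⟩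
      rw [← him]
      exact ⟨Pool.Agent.X296.Dia.im_rk E.s 1 x,
        (Pool.Agent.X296.Dia.blk_im E.q E.s one_ne_zero x).2 ((key x).2 hx)⟩
  intro K _ _ L _ _ σ hσ
  have : CharZero L := charZero_of_injective_ringHom σ.injective
  have : ProperSpace L := Pool.Agent.W279.Tri.properSpace_of_denseRange σ hσ
  have key : ∀ (J : Type) [Finite J] (E : Datum K J), Admissible E →
      FA σ {p | Pool.Agent.X296.Dia.Rk E.s p ∧ Pool.Agent.X296.Dia.Blk E.q E.s p} := by
    intro J _ E hE
    have hAd : Pool.Agent.X296.Dia.Ad E.q E.s := ⟨fun j i => by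
        rw [← sum_eq]; exact hE.separable j i, fun j i => by rw [← sum_eq]; exact hE.degree j i,
      fun j i hs => (hE.even j i hs).2.2, hE.free⟩
    exact Pool.Agent.X296.Dia.pts_FA σ hσ hAd
  refine ⟨?_, ?_⟩
  · intro J _ E hE
    have h4 := Set.Finite.image (fun I : Ideal (MvPolynomial (QuotientCoord E.r) K) =>
      (I : Set (MvPolynomial (QuotientCoord E.r) K))) (key J E hE)
    refine h4.subset ?_
    rintro _ ⟨x, rfl⟩
    refine ⟨_, ⟨x, rfl⟩, ?_⟩
    ext f
    refine Pool.Agent.Y720.MZ.mem_IA_iff.trans ?_
    refine exists_congr fun U => and_congr_right fun _ => forall_congr' fun p => ?_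
    rw [onQuotient_iff]
    exact Iff.rfl
  · intro ι _ J _ E hE
    have h1 := Pool.Agent.X296.Dia.FA_sigma (σ := σ) fun i => key (J i) (E i) (hE i)
    have h4 := Set.Finite.image (fun I : Ideal (MvPolynomial (Σ i, QuotientCoord (E i).r) K) =>
      (I : Set (MvPolynomial (Σ i, QuotientCoord (E i).r) K))) h1
    refine h4.subset ?_
    rintro _ ⟨x, rfl⟩
    refine ⟨_, ⟨x, rfl⟩, ?_⟩
    ext f
    refine Pool.Agent.Y720.MZ.mem_IA_iff.trans ?_
    refine exists_congr fun U => and_congr_right fun _ => forall_congr' fun p => ?_
    have h5 : OnProduct E p ↔ ∀ i, Pool.Agent.X296.Dia.Rk (E i).s (fun k => p ⟨i, k⟩) ∧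
        Pool.Agent.X296.Dia.Blk (E i).q (E i).s (fun k => p ⟨i, k⟩) :=
      forall_congr' fun i => onQuotient_iff (E i) _
    rw [h5]
    exact Iff.rfl

end Pool.Agent.Results.MP_f9f755_nt.DiagonalQuotients
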