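import Pool.Agent.X296.Enr.Main

/-!
# Mazur's question for the Enriques surfaces with a triquadratic double cover (helper296)

Let `F` be a polynomial of tridegree `(2,2,2)` over a number field `K` which is invariant under
the simultaneous change of the signs of `X (0,1)`, `X (1,1)`, `X (2,1)`: a linear combination with
coefficients `c k` of the 14 invariant monomials of tridegree `(2,2,2)`.  The sign change is an
involution of the surface `Y ⊂ P¹ × P¹ × P¹` given by `F = 0`.  It has no fixed points on `Y` if
and only if the coefficients `c k` of the 8 corner monomials (`k i ≠ 1` for all `i`) are not zero.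
The quotient `X` of `Y` by this involution (an Enriques surface if `Y` is smooth) is embedded in
`P¹³` by the 14 invariant monomials `z k`; its equations are `z k * z l = z m * z n` for
`k + l = m + n`, and `∑ c k * z k = 0`.

If `Y` has at most finitely many singular points and contains no fibre of the projections to
`P¹ × P¹`, then the Zariski closures of the rational points of `X` near the points of `X(K_v)`, for
all places `v` together, are: the empty set, `X`, and finitely many `K`-rational points.
-/

set_option autoImplicit false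

namespace Pool.Agent.Results.MP_f9f755_nt.EnriquesSurfaces

open MvPolynomial

universe v

/-- The indices of the monomials of tridegree `(2,2,2)` which are invariant under the sign
change. -/
abbrev Idx : Type := {k : Fin 3 → Fin 3 // Even ((k 0 : ℕ) + k 1 + k 2)}

/-- The monomial with the index `k`, evaluated at the point `p`. -/
def monomialAt {R : Type*} [CommRing R] (p : Fin 3 → Fin 2 → R) (k : Idx) : R :=
  ∏ i : Fin 3, (p i 0 ^ (2 - (k.1 i : ℕ)) * p i 1 ^ (k.1 i : ℕ))

/-- The equation `F = ∑ c k * (monomial k)` of the covering surface `Y`. -/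
noncomputable def coverForm {K : Type} [Field K] (c : Idx → K) :
    MvPolynomial (Fin 3 × Fin 2) K :=
  ∑ k : Idx, C (c k) * monomialAt (fun i a => X (i, a)) k

/-- The points (homogeneous coordinates) of the surface `X ⊂ P¹³` over a field `F`. -/
def OnSurface {F : Type*} [Field F] (c z : Idx → F) : Prop :=
  z ≠ 0 ∧ (∀ k l m n : Idx, (∀ i, (k.1 i : ℕ) + l.1 i = m.1 i + n.1 i) →
    z k * z l = z m * z n) ∧ ∑ k, c k * z k = 0

/-- The ideal of the surface `X`: the polynomials vanishing at all its points over the algebraic
closure. -/
def surfaceIdeal {K : Type} [Field K] (c : Idx → K) : Set (MvPolynomial Idx K) :=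
  {f | ∀ z : Idx → AlgebraicClosure K,
    OnSurface (fun k => algebraMap K (AlgebraicClosure K) (c k)) z → aeval z f = 0}

/-- The ideal of the local Zariski closure `Z_x` at the point `x` with values in the field `L`
(via `σ : K → L`): the polynomials which vanish at all representatives of all the `K`-rational
points of `X` having a representative in some fixed neighbourhood of `x`. -/
def localIdeal {K : Type} [Field K] (c : Idx → K) {L : Type v} [NontriviallyNormedField L]
    (σ : K →+* L) (x : Idx → L) : Set (MvPolynomial Idx K) :=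
  {f | ∃ U ∈ nhds x, ∀ y : Idx → K, OnSurface c y →
    (∃ t : L, t ≠ 0 ∧ (fun k => t * σ (y k)) ∈ U) → ∀ t : K, eval (t • y) f = 0}

/-- **Mazur's question for the Enriques surfaces with a triquadratic double cover.** -/
theorem result (K : Type) [Field K] [NumberField K] (c : Idx → K)
    -- the sign change has no fixed points on `Y`
    (hc : ∀ k : Idx, (∀ i, k.1 i ≠ 1) → c k ≠ 0)
    -- `Y` is irreducible over the algebraic closure
    (hirr : Irreducible (map (algebraMap K (AlgebraicClosure K)) (coverForm c)))
    -- no fibre of the projections to two of the factors lies on `Y`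
    (hfib : ∀ (i : Fin 3) (p : Fin 3 → Fin 2 → AlgebraicClosure K), (∀ j, p j ≠ 0) →
      ∃ w : Fin 2 → AlgebraicClosure K,
        aeval (fun q : Fin 3 × Fin 2 => Function.update p i w q.1 q.2) (coverForm c) ≠ 0)
    -- `Y` has only finitely many singular points
    (hsing : ∃ S : Set (Fin 3 → Fin 2 → AlgebraicClosure K), S.Finite ∧
      ∀ p : Fin 3 → Fin 2 → AlgebraicClosure K, (∀ i, p i ≠ 0) →
        (∀ q : Fin 3 × Fin 2,
          aeval (fun r : Fin 3 × Fin 2 => p r.1 r.2) (pderiv q (coverForm c)) = 0) →
        ∃ s ∈ S, ∀ i, ∃ t : AlgebraicClosure K, p i = t • s i) :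
    -- the points of `X` over the algebraic closure are the images of the points of `Y`
    (∀ z : Idx → AlgebraicClosure K,
      OnSurface (fun k => algebraMap K (AlgebraicClosure K) (c k)) z ↔
        ∃ p : Fin 3 → Fin 2 → AlgebraicClosure K, (∀ i, p i ≠ 0) ∧
          aeval (fun q => p q.1 q.2) (coverForm c) = 0 ∧ z = monomialAt p) ∧
    -- and with a finite set `T` of rational points of `X`,
    ∃ T : Set (Idx → K), T.Finite ∧ (∀ y ∈ T, OnSurface c y) ∧
      -- for all completions `L` of `K`
      ∀ (L : Type v) [NontriviallyNormedField L] [CompleteSpace L] (σ : K →+* L),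
        DenseRange σ →
        -- at all points `x` of `X` over `L`
        (∀ x : Idx → L, OnSurface (fun k => σ (c k)) x →
          -- the local closure is empty,
          localIdeal c σ x = Set.univ ∨
          -- or it is the whole surface,
          localIdeal c σ x = surfaceIdeal c ∨
          -- or it is the single point `x`, which lies in `T`;
          ∃ y ∈ T, (∃ t : L, t ≠ 0 ∧ ∀ k, x k = t * σ (y k)) ∧
            localIdeal c σ x = {f | ∀ t : K, eval (t • y) f = 0}) ∧
        -- in particular there are only finitely many local closures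
        {J : Set (MvPolynomial Idx K) | ∃ x : Idx → L,
          OnSurface (fun k => σ (c k)) x ∧ J = localIdeal c σ x}.Finite := by
  have hmo : ∀ {R : Type} [CommRing R] (p : Fin 3 → Fin 2 → R) (k : Idx),
      monomialAt p k = X296.Enr.mo p k.1 := by
    intro R _ p k
    unfold monomialAt X296.Enr.mo
    rw [Fin.prod_univ_three, X296.Enr.mon_eq, X296.Enr.mon_eq, X296.Enr.mon_eq]
  have htw : ∀ {R : Type} [CommRing R] (p : Fin 3 → Fin 2 → R) (k : Idx),
      X296.Enr.tw 1 p k = monomialAt p k := by
    intro R _ p k
    rw [hmo]
    unfold X296.Enr.tw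
    rw [one_pow, one_mul]
  have hform : coverForm c = W279.Tri.form (X296.Enr.arr 1 c) := by
    unfold coverForm
    have h1 := X296.Enr.sum_E (R := MvPolynomial (Fin 3 × Fin 2) K) 1 (fun k => C (c k))
      (fun i a => X (i, a))
    simp only [htw] at h1
    rw [h1, W279.Tri.E_expand]
    unfold W279.Tri.form
    refine Finset.sum_congr rfl fun i _ => Finset.sum_congr rfl fun j _ =>
      Finset.sum_congr rfl fun k _ => ?_
    unfold X296.Enr.arr
    split_ifs
    · simp
    · simp
  have hadm : X296.Enr.Adm (W279.Tri.form (X296.Enr.arr 1 c)) := by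
    rw [← hform]
    exact ⟨hirr, hfib, hsing⟩
  have hon : ∀ {F : Type v} [Field F] (φ : K →+* F) (z : Idx → F),
      X296.Enr.OnX φ c z ↔ OnSurface (fun k => φ (c k)) z := fun φ z => Iff.rfl
  have honA : ∀ {F : Type} [Field F] (φ : K →+* F) (z : Idx → F),
      X296.Enr.OnX φ c z ↔ OnSurface (fun k => φ (c k)) z := fun φ z => Iff.rfl
  obtain ⟨T, hT, hT1, h⟩ := X296.Enr.main hc hadm
  refine ⟨?_, T, hT, fun y hy => hT1 y hy, fun L _ _ σ hσ => ?_⟩
  · intro z
    rw [← honA]
    constructor
    · intro hz
      obtain ⟨p, hp, hzp⟩ := X296.Enr.rep_closed hz.2.1 hz.1 (one_ne_zero)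
      refine ⟨p, hp, ?_, ?_⟩
      · have hE := X296.Enr.E_of_onX (algebraMap K (AlgebraicClosure K)) (d := 1) hz (p := p)
          ⟨hp, 1, one_ne_zero, fun k => by rw [hzp, map_one, one_mul]⟩
        rw [hform, aeval_def, W279.Tri.eval₂_form]
        exact hE
      · rw [hzp]
        funext k
        exact htw p k
    · rintro ⟨p, hp, hE, rfl⟩
      have h1 : (fun k => monomialAt p k) =
          X296.Enr.tw (algebraMap K (AlgebraicClosure K) 1) p := by
        funext k
        rw [map_one, htw]
      change X296.Enr.OnX _ c (fun k => monomialAt p k)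
      rw [h1]
      refine X296.Enr.onX_tw (algebraMap K (AlgebraicClosure K)) one_ne_zero hp ?_
      rw [hform, aeval_def, W279.Tri.eval₂_form] at hE
      exact hE
  · have hJ : ∀ x : Idx → L, localIdeal c σ x = X296.Enr.JX c σ x := fun x => rfl
    have hI : surfaceIdeal c = X296.Enr.IX c := rfl
    have key : ∀ x : Idx → L, OnSurface (fun k => σ (c k)) x →
        localIdeal c σ x = Set.univ ∨ localIdeal c σ x = surfaceIdeal c ∨
          ∃ y ∈ T, (∃ t : L, t ≠ 0 ∧ ∀ k, x k = t * σ (y k)) ∧
            localIdeal c σ x = {f | ∀ t : K, eval (t • y) f = 0} :=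
      fun x hx => h L σ hσ x hx.1
    refine ⟨key, ?_⟩
    refine ((Set.toFinite {Set.univ, surfaceIdeal c}).union (hT.image
      fun y => {f : MvPolynomial Idx K | ∀ t : K, eval (t • y) f = 0})).subset ?_
    rintro J ⟨x, hx, rfl⟩
    rcases key x hx with h1 | h1 | ⟨y, hy, -, h1⟩
    · exact Or.inl (Or.inl h1)
    · exact Or.inl (Or.inr h1)
    · exact Or.inr ⟨y, hy, h1.symm⟩

end Pool.Agent.Results.MP_f9f755_nt.EnriquesSurfaces
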