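import Pool.Agent.X296.Tri.Main
import Pool.Agent.X296.Dia.Sig
import Pool.Agent.X296.Kum.QuotK

/-!
# Mazur's question for the triple covers `w³ = A f₁(z₁) ⋯ f_r(z_r)` (helper296)

Let `K` be a number field. We consider the triple covers `X : w³ = A f₁(z₁) ⋯ f_r(z_r)` of the product
of `r` projective lines, where `A ≠ 0` and the `f_i` are separable polynomials of degree two, or of
degree three with a root in `K` (so that the curves `w³ = c f_i(z)` are the forms of the elliptic
curve with complex multiplication by the cube roots of unity which have a flex over `K` on the
branch locus). For `r = 1` these are curves of genus one. For `r = 2` the resolution of `X` is a K3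
surface, over `ℂ` the K3 surface with transcendental lattice `A₂` (one of the two most algebraic K3
surfaces of Vinberg). In general `X` is a singular Calabi–Yau variety, the quotient of `E₁ × ⋯ × E_r`
by the group of the `(ζ₁, …, ζ_r)` with `∏ ζ_i = 1`; for `r = 3` it has a resolution which is a rigid
Calabi–Yau threefold.

The ideals of the local Zariski closures of `X(K)` at the points of `X` over a completion of `K` take
only finitely many values, and this holds for all finite products of such varieties.

The parts of the completion of `X` in which some of the `z_i` are replaced by `1/z_i` (and `w` by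
`w/z_i`) are given by equations of the same form: the polynomial `f_i(z)` is replaced by
`z³ f_i(1/z)`, which is again separable of degree two, or of degree three with a root in `K`. So the
result holds for all the points of the completion.

Idea of the proof. All the curves `w³ = c (z² - d)` (`c` in `K`) are isomorphic to each other over
extensions of `K`, by isomorphisms which fix the coordinate `z`. The duplication acts on `z` by the
rational function `(z⁴ + 18 d z² - 27 d²) / (8 z³)` of degree four, for all `c`. So there is a finite
set `T` such that the point `(z, w)` has infinite order if `z` is not in `T` (Northcott), on all the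
curves of the family (`Pool.Agent.X296.Tri.Nor`), and then there are other rational points of the
curve close to it (`Pool.Agent.X296.Tri.Near`). A rational point of `X` with `w ≠ 0` can be moved in
the directions `i` with `z_i ∉ T_i`. A polynomial `g₀ + g₁ w + g₂ w²` which vanishes at the rational
points close to it vanishes on the subvariety on which the other coordinates are constant: on a
curve `w³ = c f_i(z_i)` the norm form `g₀³ + F g₁³ + F² g₂³ - 3 F g₀ g₁ g₂` (`F = c f_i`) would have
infinitely many zeros, and it has no nontrivial zeros over the polynomial ring
(`Pool.Agent.X296.Tri.Norm`).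
-/

set_option autoImplicit false

namespace Pool.Agent.Results.MP_f9f755_nt.TripleCovers

open Pool.Agent.TH729.CV

universe v

/-- The coordinates of the product over `j` of the varieties `X_j : w_j³ = A_j ∏_i f_ji(z_ji)`:
`⟨j, none⟩` for `w_j` and `⟨j, some i⟩` for `z_ji`. -/
abbrev Coord {J : Type} (r : J → ℕ) : Type := Σ j, Option (Fin (r j))

/-- The numbers, the constants and the polynomials `f_ji`. -/
structure Datum (K : Type) [Field K] (J : Type) where
  /-- the number of the polynomials for each factor -/
  r : J → ℕ
  /-- the constants -/
  A : J → K
  /-- the polynomials -/
  f : ∀ j, Fin (r j) → Polynomial K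

/-- The hypotheses: `A_j ≠ 0`, and `f_ji` is separable of degree two, or separable of degree three
with a root in `K`. -/
structure Admissible {K : Type} [Field K] {J : Type} (E : Datum K J) : Prop where
  constant : ∀ j, E.A j ≠ 0
  separable : ∀ j i, (E.f j i).Separable
  degree : ∀ j i, (E.f j i).natDegree = 2 ∨
    ((E.f j i).natDegree = 3 ∧ ∃ s : K, (E.f j i).eval s = 0)

/-- The `K`-rational points of the product of the triple covers. -/
def OnCovers {K : Type} [Field K] {J : Type} (E : Datum K J) (y : Coord E.r → K) : Prop :=
  ∀ j, y ⟨j, none⟩ ^ 3 = E.A j * ∏ i, (E.f j i).eval (y ⟨j, some i⟩)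

/-- The ideal of the local Zariski closure of the set of the `K`-rational points at the
point `x` with values in the field `L` (via `σ : K → L`): the polynomials which vanish at all the
`K`-rational points in some neighbourhood of `x`. -/
def localIdeal {K : Type} [Field K] {J : Type} (E : Datum K J) {L : Type v}
    [NontriviallyNormedField L] (σ : K →+* L) (x : Coord E.r → L) :
    Set (MvPolynomial (Coord E.r) K) :=
  {g | ∃ U ∈ nhds x, ∀ y : Coord E.r → K, OnCovers E y →
    (fun k => σ (y k)) ∈ U → MvPolynomial.eval y g = 0}

/-- **Mazur's question for triple covers of products of projective lines.** For all number fields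
and all their completions, the local ideals take only finitely many values. -/
theorem result (K : Type) [Field K] [NumberField K] (L : Type v) [NontriviallyNormedField L]
    [CompleteSpace L] (σ : K →+* L) (hσ : DenseRange σ) (J : Type) [Finite J] (E : Datum K J)
    (hE : Admissible E) :
    {I : Set (MvPolynomial (Coord E.r) K) |
      ∃ x : Coord E.r → L, I = localIdeal E σ x}.Finite := by
  have : CharZero L := charZero_of_injective_ringHom σ.injective
  have : ProperSpace L := Pool.Agent.W279.Tri.properSpace_of_denseRange σ hσ
  have h1 := Pool.Agent.X296.Dia.FA_sigma (σ := σ)
    (D := fun j => Pool.Agent.X296.Tri.ST (E.A j) (E.f j))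
    fun j => Pool.Agent.X296.Tri.mainT σ hσ (hE.constant j) (hE.separable j) (hE.degree j)
  have h4 := Set.Finite.image (fun I : Ideal (MvPolynomial (Coord E.r) K) =>
    (I : Set (MvPolynomial (Coord E.r) K))) h1
  refine h4.subset ?_
  rintro _ ⟨x, rfl⟩
  refine ⟨_, ⟨x, rfl⟩, ?_⟩
  ext g
  exact Pool.Agent.Y720.MZ.mem_IA_iff

end Pool.Agent.Results.MP_f9f755_nt.TripleCovers
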