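import Pool.Agent.X95T.MA8
import Pool.Agent.X95T.NC2

/-!
# Mazur's question for weighted quartics and for quadric bundles of degree six

**Part A, weighted quartics (generalized Châtelet varieties).** Let `K` be a number field, `a_1, …, a_m ∈ K`, `m ≥ 2`, all different from zero, and let `F ≠ 0` be
any form of degree four over `K` in `y_0, …, y_n`; it may be singular, reducible or not reduced.
Let `X` be the variety `∑ a_i w_i² = F(y)` in the weighted projective space
`ℙ(2, …, 2, 1, …, 1)`. It has dimension `n + m - 1`, and its projection to the `y` is a family of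
quadrics (conics for `m = 2`) in `ℙ^m`. For `n = 1`, `m = 2` these are the
(singular) Châtelet surfaces.

The sections of `O(2)` embed `X` in a projective space. The coordinates are `w_i` and
`s_jk = y_j y_k`; write `F(y) = q(y_j y_k)` with a form `q` of degree two in the `s_jk` (so `F` is
`quarticForm q`, and each form of degree four is of this kind). The equations of `X`
(`equations a q`) are
`s_jk = s_kj`, `s_jk s_ln = s_jl s_kn`, `∑ a_i w_i² = q(s)`. The ideal defined by them has prime
radical, so `X` is irreducible (also over the algebraic closure). For a place of `K` with completion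
`L` and a point `x` of `X` over `L` let `Z_x` be the intersection of the Zariski closures of the sets
of `K`-points of `X` in the neighbourhoods of `x`; its ideal is `localIdeal σ (equations a q) x`.

(1) `X(K)` is Zariski dense in `X` near each point of `X(K)` with `F ≠ 0`: for each such point `x` and
all places `Z_x = X`.

(2) For all places and all `x ∈ X(L)` we have `Z_x = X`, or `Z_x` is the intersection of the Zariski
closures of the sets of the `K`-points of `X` with `F = 0` in the neighbourhoods of `x`.

(3) If the form `∑ a_i w_i²` has a nontrivial zero over `K`, then `Z_x = X` for all places and all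
`x ∈ X(L)`.

(4) If Mazur's question has a positive answer for the quartic hypersurface `F = 0` in `ℙⁿ` and a
place, then it has a positive answer for `X` and this place.

(5) Mazur's question has a positive answer for `X` and all places, if `n ≤ 1`, or if `F` is a product
of forms each of which has degree at most three or only finitely many zeros in `ℙⁿ(K)` (for example,
if `F` itself has only finitely many zeros).

The proof. (1) Let `P = (w₀, y₀)` be a `K`-point of the affine cone with `F(y₀) ≠ 0`. For a direction
`v` in the space of the `y`, and for `w₁`, `w₂` such that the curve `y = y₀ + t v`,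
`w = w₀ + t w₁ + t² w₂` meets the cone at `t = 0` with multiplicity at least three, its equation has
degree at most four in `t` on this curve, and the remaining point of intersection is rational.
This gives a rational map of an affine space to the cone. It is dominant, since `m ≥ 2`, and it takes
values near `P`: the remaining point tends to `P` for suitable parameters. (3) The variety is
rational here, and the projection from the isotropic subspaces of the fibres gives the
approximation at all points, including the singular ones. (4) If `∑ a_i w_i²` is anisotropic, the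
points of `X(K)` with `F = 0` are the points with `w = 0`, `F(y) = 0`, and those near `x` come from
points near the point `y` of the quartic hypersurface below `x`.
(5) uses the theorem on hypersurfaces of degree at most three (`CubicHypersurfaces`).

**Part B, degree six.** Let `m ≥ 2` and `a_i` be as above, and let `f ∈ K[z_1, …, z_n]` be any
polynomial which has degree at most six in each variable (so its total degree can be up to `6 n`).
Let `V` be the affine variety `∑ a_i w_i² = f(z)`.

(6) For each place of `K` with completion `L` and each point `x` over `L` with `f(x) ≠ 0` the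
intersection of the Zariski closures of the sets of `K`-points of `V` in the neighbourhoods of `x`
is `V` or empty. (It is `V` if `x` is a `K`-point of `V`.)

So on each projective variety `X` containing `V` as an open subset, the sets `Z_x`, `x ∈ V(L)`,
`f(x) ≠ 0`, take at most the two values `X` and `∅`.

The proof of (6): the closure of `V(K)` in `V(L)` is open outside of `f = 0` (the theorem in
`MP_12adaf_nt.SexticConicBundles`: curves `z = z₀ + t v`, `w = w₀ + t w₁ + t² w₂ + t³ w₃` which meet
`V` at a rational point with multiplicity five), so a polynomial vanishing at the rational points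
close to `x` vanishes on an open subset of `V(L)`.
-/

set_option autoImplicit false

namespace Pool.Agent.Results.MP_f9f755_nt.WeightedQuartics

open MvPolynomial

/-- The ideal of the local Zariski closure at `x` of the set of the `K`-points of the projective
variety with the equations `S` (as in the problem). -/
def localIdeal {ι K L : Type} [Field K] [NontriviallyNormedField L] (σ : K →+* L)
    (S : Set (MvPolynomial ι K)) (x : ι → L) : Set (MvPolynomial ι K) :=
  {f | ∃ U ∈ nhds x, ∀ y : ι → K, y ≠ 0 → (∀ g ∈ S, eval y g = 0) →
    (∃ c : L, c ≠ 0 ∧ (fun i => c * σ (y i)) ∈ U) → ∀ t : K, eval (t • y) f = 0}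

/-- The ideals of the local Zariski closures at all points over `L` of the projective variety with
the equations `S`. -/
def localIdeals {ι K L : Type} [Field K] [NontriviallyNormedField L] (σ : K →+* L)
    (S : Set (MvPolynomial ι K)) : Set (Set (MvPolynomial ι K)) :=
  {J | ∃ x : ι → L, x ≠ 0 ∧ (∀ g ∈ S, eval₂ σ x g = 0) ∧ J = localIdeal σ S x}

/-- The equations of the image of the weighted quartic `∑ a_i w_i² = q(y_j y_k)` under the sections
of `O(2)`. The variable `Sum.inl i` is `w_i`, the variable `Sum.inr (j, k)` is `y_j y_k`. -/
def equations {K : Type} [Field K] {m n : ℕ} (a : Fin m → K)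
    (q : MvPolynomial (Fin (n + 1) × Fin (n + 1)) K) :
    Set (MvPolynomial (Fin m ⊕ Fin (n + 1) × Fin (n + 1)) K) :=
  {g | (∃ i j, g = X (Sum.inr (i, j)) - X (Sum.inr (j, i))) ∨
    (∃ i j k l, g = X (Sum.inr (i, j)) * X (Sum.inr (k, l)) -
      X (Sum.inr (i, k)) * X (Sum.inr (j, l))) ∨
    g = ∑ i, C (a i) * X (Sum.inl i) ^ 2 - rename Sum.inr q}

/-- The quartic form `F(y) = q(y_j y_k)`. -/
noncomputable def quarticForm {K : Type} [Field K] {n : ℕ}
    (q : MvPolynomial (Fin (n + 1) × Fin (n + 1)) K) : MvPolynomial (Fin (n + 1)) K :=
  aeval (fun p => X p.1 * X p.2) q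

/-- The form `G` has only finitely many zeros over `K` up to scalars. -/
def FewZeros {K : Type} [Field K] {n : ℕ} (G : MvPolynomial (Fin (n + 1)) K) : Prop :=
  ∃ B : Finset (Fin (n + 1) → K), ∀ y : Fin (n + 1) → K, eval y G = 0 →
    ∃ t ∈ B, ∃ c : K, y = c • t

/-- The ideal of the local Zariski closure at a point `x` of an affine space over `L` of the set of
the `K`-points of the affine variety with the equations `S`. -/
def affineLocalIdeal {ι K L : Type} [Field K] [NontriviallyNormedField L] (σ : K →+* L)
    (S : Set (MvPolynomial ι K)) (x : ι → L) : Set (MvPolynomial ι K) :=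
  {g | ∃ U ∈ nhds x, ∀ y : ι → K, (∀ e ∈ S, eval y e = 0) → (fun i => σ (y i)) ∈ U →
    eval y g = 0}

/-- The polynomial `∑ a_i w_i² - f(z)`. The variable `Sum.inl i` is `w_i`, the variable `Sum.inr j` is
`z_j`. -/
noncomputable def affineEquation {K : Type} [Field K] {m n : ℕ} (a : Fin m → K)
    (f : MvPolynomial (Fin n) K) : MvPolynomial (Fin m ⊕ Fin n) K :=
  ∑ i, C (a i) * X (Sum.inl i) ^ 2 - rename Sum.inr f

/-- The assertions (1) - (5) of part A on the variety with the equations `equations a q`. -/
def QuarticCase (K : Type) [Field K] {m n : ℕ} (a : Fin m → K)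
    (q : MvPolynomial (Fin (n + 1) × Fin (n + 1)) K) : Prop :=
  -- all places of `K`
  ∀ (L : Type) [NontriviallyNormedField L] [CompleteSpace L] (σ : K →+* L), DenseRange σ →
    -- (1) the points over `K` with `F ≠ 0`
    (∀ z : Fin m ⊕ Fin (n + 1) × Fin (n + 1) → K, (∀ g ∈ equations a q, eval z g = 0) →
      eval (fun p => z (Sum.inr p)) q ≠ 0 →
      localIdeal σ (equations a q) (fun i => σ (z i)) = (Ideal.span (equations a q)).radical) ∧
    -- (2) all points
    (∀ x : Fin m ⊕ Fin (n + 1) × Fin (n + 1) → L,
      localIdeal σ (equations a q) x = (Ideal.span (equations a q)).radical ∨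
      localIdeal σ (equations a q) x = localIdeal σ (equations a q ∪ {rename Sum.inr q}) x) ∧
    -- (3) isotropic forms
    ((∃ w : Fin m → K, w ≠ 0 ∧ ∑ i, a i * w i ^ 2 = 0) →
      ∀ x : Fin m ⊕ Fin (n + 1) × Fin (n + 1) → L,
        (∀ g ∈ equations a q, eval₂ σ x g = 0) →
        localIdeal σ (equations a q) x = (Ideal.span (equations a q)).radical) ∧
    -- (4) reduction to the quartic hypersurface
    ((localIdeals σ {quarticForm q}).Finite → (localIdeals σ (equations a q)).Finite) ∧
    -- (5) unconditional cases
    (n ≤ 1 → (localIdeals σ (equations a q)).Finite) ∧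
    (∀ (N : ℕ) (G : Fin N → MvPolynomial (Fin (n + 1)) K) (d : Fin N → ℕ),
      (∀ i, (G i).IsHomogeneous (d i)) → (∀ i, d i ≤ 3 ∨ FewZeros (G i)) →
      quarticForm q = ∏ i, G i → (localIdeals σ (equations a q)).Finite)

/-- The assertion (6) of part B on the variety `∑ a_i w_i² = f(z)`. -/
def SexticCase (K : Type) [Field K] {m n : ℕ} (a : Fin m → K) (f : MvPolynomial (Fin n) K) :
    Prop :=
  -- all places of `K`
  ∀ (L : Type) [NontriviallyNormedField L] [CompleteSpace L] (σ : K →+* L), DenseRange σ →
    -- (6) the points with `f ≠ 0`
    ∀ x : Fin m ⊕ Fin n → L, eval₂ σ (fun j => x (Sum.inr j)) f ≠ 0 →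
      affineLocalIdeal σ {affineEquation a f} x = (Ideal.span {affineEquation a f}).radical ∨
      affineLocalIdeal σ {affineEquation a f} x = Set.univ

/-- **Mazur's question for weighted quartics and for quadric bundles of degree six.** -/
theorem result :
    -- Part A
    (∀ (K : Type) [Field K] [NumberField K] (m n : ℕ) (a : Fin m → K)
      (q : MvPolynomial (Fin (n + 1) × Fin (n + 1)) K), 2 ≤ m → (∀ i, a i ≠ 0) →
      q.IsHomogeneous 2 → quarticForm q ≠ 0 →
      -- the variety is irreducible
      (Ideal.span (equations a q)).radical.IsPrime ∧ QuarticCase K a q) ∧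
    -- Part B
    (∀ (K : Type) [Field K] [NumberField K] (m n : ℕ) (a : Fin m → K)
      (f : MvPolynomial (Fin n) K), 2 ≤ m → (∀ i, a i ≠ 0) → (∀ j, f.degreeOf j ≤ 6) →
      SexticCase K a f) := by
  constructor
  · intro K _ _ m n a q hm ha hq hF
    have hidl := Pool.Agent.X95T.WQ.idl_rad (K := K) (m := m) (n := n) (equations a q)
    refine ⟨Pool.Agent.X95T.WQ.rad_prime hm ha hq hF, fun L _ _ σ hσ => ?_⟩
    rw [← hidl]
    have h4 : (localIdeals σ {quarticForm q}).Finite → (localIdeals σ (equations a q)).Finite :=
      fun h => Pool.Agent.X95T.WQ.red_all hm ha hq hF hσ h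
    refine ⟨?_, fun x => Pool.Agent.X95T.WQ.dich hm ha hq hσ x,
      fun hiso x hx => Pool.Agent.X95T.WQ.iso_loc hm ha hq hF hσ hiso hx, h4, ?_, ?_⟩
    · intro z hz hqz
      refine Pool.Agent.X95T.WQ.loc_gen hm ha hq hσ fun U hU => ⟨z, hz, hqz, 1, one_ne_zero, ?_⟩
      simp only [one_mul]
      exact mem_of_mem_nhds hU
    · intro hn
      exact h4 (Pool.Agent.X95T.WQ.FZ.fin (Pool.Agent.X95T.WQ.qf_deg hq)
        (Pool.Agent.X95T.WQ.fz_bin hn (Pool.Agent.X95T.WQ.qf_deg hq) hF))
    · intro N G d hG hd hprod
      apply h4
      rw [hprod]
      exact Pool.Agent.X95T.WQ.mazur_prod σ hσ N G d hG hd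
  · intro K _ _ m n a f hm ha hf L _ _ σ hσ x hx
    have : Nontrivial (Fin m) := Fin.nontrivial_iff_two_le.2 hm
    exact Pool.Agent.X95T.SX.aff hf hσ ha hx

end Pool.Agent.Results.MP_f9f755_nt.WeightedQuartics
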